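import Pool.Agent.helper31.HK.PR

/-!
# HK: contiguous maps
-/

set_option autoImplicit false

noncomputable section

open scoped Classical

namespace Pool.Agent.helper62.K3

/-- Contiguous maps. -/
theorem HT1 {X Y : Type} [MetricSpace X] [MetricSpace Y] (B : Set X) (D : Set Y) (φ ψ : X → Y)
    (n : ℕ) (f : Finset Y → ZMod 2) (ε : ℝ)
    (hf : ∀ s : Finset Y, (↑s : Set Y) ⊆ D → Small ε s → s.card = n + 1 → dd f s = 0)
    (hφ : ∀ x ∈ B, φ x ∈ D) (hψ : ∀ x ∈ B, ψ x ∈ D) (δ : ℝ) (hδ : 0 < δ)
    (h1 : ∀ x ∈ B, ∀ y ∈ B, dist x y < δ → dist (φ x) (φ y) < ε)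
    (h2 : ∀ x ∈ B, ∀ y ∈ B, dist x y < δ → dist (φ x) (ψ y) < ε)
    (h3 : ∀ x ∈ B, ∀ y ∈ B, dist x y < δ → dist (ψ x) (ψ y) < ε) :
    ∃ g : Finset X → ZMod 2, g ∅ = 0 ∧ pull φ f + pull ψ f + dd g ∈ Zg B n := by
  let _ : LinearOrder X := linearOrderOfSTO WellOrderingRel
  refine ⟨prism (id : X → X) φ ψ f, ?_, δ, hδ, fun σ hσ hs hc => ?_⟩
  · change (∑ x ∈ (∅ : Finset X), (if (prismSet (id : X → X) φ ψ ∅ x).card =
      (∅ : Finset X).card + 1 then f (prismSet (id : X → X) φ ψ ∅ x) else 0)) = 0
    rw [Finset.sum_empty]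
  · have h := PR (id : X → X) φ ψ f σ (Function.injective_id.injOn)
    rw [Pi.add_apply, Pi.add_apply, ← h]
    have h0 : prism (id : X → X) φ ψ (dd f) σ = 0 := by
      change ∑ x ∈ σ, (if (prismSet (id : X → X) φ ψ σ x).card = σ.card + 1 then
        dd f (prismSet (id : X → X) φ ψ σ x) else 0) = 0
      refine Finset.sum_eq_zero fun x _ => ?_
      split_ifs with hcard
      · refine hf _ ?_ ?_ (by rw [hcard, hc])
        · intro y hy
          rw [Finset.mem_coe] at hy
          unfold prismSet at hy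
          rw [Finset.mem_union, Finset.mem_image, Finset.mem_image] at hy
          rcases hy with ⟨z, hz, rfl⟩ | ⟨z, hz, rfl⟩
          · exact hφ z (hσ (Finset.mem_of_mem_filter z hz))
          · exact hψ z (hσ (Finset.mem_of_mem_filter z hz))
        · intro y hy y' hy'
          unfold prismSet at hy hy'
          rw [Finset.mem_union, Finset.mem_image, Finset.mem_image] at hy hy'
          rcases hy with ⟨z, hz, rfl⟩ | ⟨z, hz, rfl⟩ <;> rcases hy' with ⟨z', hz', rfl⟩ | ⟨z', hz', rfl⟩
          · have a := Finset.mem_of_mem_filter z hz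
            have a' := Finset.mem_of_mem_filter z' hz'
            exact h1 z (hσ a) z' (hσ a') (hs z a z' a')
          · have a := Finset.mem_of_mem_filter z hz
            have a' := Finset.mem_of_mem_filter z' hz'
            exact h2 z (hσ a) z' (hσ a') (hs z a z' a')
          · have a := Finset.mem_of_mem_filter z hz
            have a' := Finset.mem_of_mem_filter z' hz'
            rw [dist_comm]
            exact h2 z' (hσ a') z (hσ a) (hs z' a' z a)
          · have a := Finset.mem_of_mem_filter z hz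
            have a' := Finset.mem_of_mem_filter z' hz'
            exact h3 z (hσ a) z' (hσ a') (hs z a z' a')
      · rfl
    rw [h0, add_zero]
    exact CharTwo.add_self_eq_zero _

end Pool.Agent.helper62.K3
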