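import Pool.Agent.helper62.K3.Defs

/-!
# HK: equivariance of the prism operator
-/

set_option autoImplicit false

noncomputable section

open scoped Classical

namespace Pool.Agent.helper62.K3

/-- Equivariance of the prism operator. -/
theorem PE {X Y L : Type} [LinearOrder L] (key : X → L) (φ ψ : X → Y) (g : X → X) (g' : Y → Y)
    (hg : Function.Injective g) (hg' : Function.Injective g')
    (h1 : ∀ x, φ (g x) = g' (φ x)) (h2 : ∀ x, ψ (g x) = g' (ψ x)) (h3 : ∀ x, key (g x) = key x)
    (f : Finset Y → ZMod 2) (hf : ∀ s : Finset Y, f (s.image g') = f s) (σ : Finset X) :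
    prism key φ ψ f (σ.image g) = prism key φ ψ f σ := by
  change (∑ x ∈ σ.image g, if (prismSet key φ ψ (σ.image g) x).card = (σ.image g).card + 1 then
    f (prismSet key φ ψ (σ.image g) x) else 0) = ∑ x ∈ σ,
    if (prismSet key φ ψ σ x).card = σ.card + 1 then f (prismSet key φ ψ σ x) else 0
  rw [Finset.sum_image fun a _ b _ h => hg h]
  refine Finset.sum_congr rfl fun x _ => ?_
  have e : prismSet key φ ψ (σ.image g) (g x) = (prismSet key φ ψ σ x).image g' := by
    unfold prismSet
    rw [Finset.image_union, Finset.filter_image, Finset.filter_image, Finset.image_image,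
      Finset.image_image, Finset.image_image, Finset.image_image]
    have e1 : φ ∘ g = g' ∘ φ := funext h1
    have e2 : ψ ∘ g = g' ∘ ψ := funext h2
    simp only [h3, e1, e2]
  rw [e, Finset.card_image_of_injective _ hg', Finset.card_image_of_injective _ hg, hf]

end Pool.Agent.helper62.K3
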