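import Pool.Agent.helper62.K3.Defs

/-!
# HK: the prism identity
-/

set_option autoImplicit false

noncomputable section

open scoped Classical

namespace Pool.Agent.helper62.K3

/-- Chains. -/
abbrev PR_Ch (Y : Type) : Type := Finset Y →₀ ZMod 2

variable {X Y L : Type}

lemma PR_two (c : PR_Ch Y) : c + c = 0 := by
  rw [← two_smul (ZMod 2) c, show (2 : ZMod 2) = 0 from rfl, zero_smul]

/-- Boundary. -/
def PR_bd : PR_Ch Y →ₗ[ZMod 2] PR_Ch Y :=
  Finsupp.linearCombination (ZMod 2) (fun s : Finset Y => ∑ x ∈ s, Finsupp.single (s.erase x) 1)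

/-- Adding a vertex. -/
def PR_m (y : Y) : PR_Ch Y →ₗ[ZMod 2] PR_Ch Y :=
  Finsupp.linearCombination (ZMod 2)
    (fun s : Finset Y => if y ∈ s then 0 else Finsupp.single (insert y s) 1)

lemma PR_bd_single (s : Finset Y) : PR_bd (Finsupp.single s 1) =
    ∑ x ∈ s, (Finsupp.single (s.erase x) 1 : PR_Ch Y) := by
  unfold PR_bd
  rw [Finsupp.linearCombination_single, one_smul]

lemma PR_m_single (y : Y) (s : Finset Y) : PR_m y (Finsupp.single s 1) =
    if y ∈ s then (0 : PR_Ch Y) else Finsupp.single (insert y s) 1 := by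
  unfold PR_m
  rw [Finsupp.linearCombination_single, one_smul]

lemma PR_bd_m (y : Y) (c : PR_Ch Y) : PR_bd (PR_m y c) + PR_m y (PR_bd c) = c := by
  have h : (PR_bd ∘ₗ PR_m y) + (PR_m y ∘ₗ PR_bd) = (LinearMap.id : PR_Ch Y →ₗ[ZMod 2] PR_Ch Y) := by
    refine Finsupp.lhom_ext' fun s => LinearMap.ext_ring ?_
    simp only [LinearMap.comp_apply, Finsupp.lsingle_apply, LinearMap.add_apply, LinearMap.id_apply]
    rw [PR_m_single, PR_bd_single]
    by_cases hy : y ∈ s
    · rw [if_pos hy, map_zero, zero_add, map_sum, Finset.sum_eq_single y]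
      · rw [PR_m_single, if_neg (Finset.notMem_erase y s), Finset.insert_erase hy]
      · intro x _ hxy
        rw [PR_m_single, if_pos (Finset.mem_erase.mpr ⟨hxy.symm, hy⟩)]
      · intro h
        exact absurd hy h
    · rw [if_neg hy, PR_bd_single, Finset.sum_insert hy, Finset.erase_insert hy, map_sum]
      have h1 : ∑ x ∈ s, (Finsupp.single ((insert y s).erase x) 1 : PR_Ch Y) =
          ∑ x ∈ s, PR_m y (Finsupp.single (s.erase x) 1) := by
        refine Finset.sum_congr rfl fun x hx => ?_
        have hxy : x ≠ y := by rintro rfl; exact hy hx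
        rw [PR_m_single, if_neg (fun h => hy (Finset.mem_of_mem_erase h)),
          Finset.erase_insert_of_ne hxy.symm]
      rw [h1, add_assoc, PR_two, add_zero]
  exact LinearMap.congr_fun h c

lemma PR_bd_m' (y : Y) (c : PR_Ch Y) : PR_bd (PR_m y c) = c + PR_m y (PR_bd c) := by
  have h := PR_bd_m y c
  calc PR_bd (PR_m y c) = PR_bd (PR_m y c) + (PR_m y (PR_bd c) + PR_m y (PR_bd c)) := by
        rw [PR_two, add_zero]
    _ = c + PR_m y (PR_bd c) := by rw [← add_assoc, h]

/-- The image chain. -/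
def PR_im (φ : X → Y) (σ : Finset X) : PR_Ch Y :=
  if (σ.image φ).card = σ.card then Finsupp.single (σ.image φ) 1 else 0

lemma PR_im_insert (φ : X → Y) (x : X) (τ : Finset X) (hx : x ∉ τ) :
    PR_im φ (insert x τ) = PR_m (φ x) (PR_im φ τ) := by
  unfold PR_im
  rw [Finset.image_insert, Finset.card_insert_of_notMem hx]
  by_cases h1 : (τ.image φ).card = τ.card
  · rw [if_pos h1, PR_m_single]
    by_cases h2 : φ x ∈ τ.image φ
    · rw [if_pos h2, Finset.insert_eq_of_mem h2, if_neg (by omega)]
    · rw [if_neg h2, Finset.card_insert_of_notMem h2, if_pos (by omega)]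
  · rw [if_neg h1, map_zero, if_neg]
    intro h
    have h3 := Finset.card_insert_le (φ x) (τ.image φ)
    have h4 := Finset.card_image_le (s := τ) (f := φ)
    omega

lemma PR_im_bd (φ : X → Y) (σ : Finset X) :
    ∑ x ∈ σ, PR_im φ (σ.erase x) = PR_bd (PR_im φ σ) := by
  induction σ using Finset.induction_on with
  | empty =>
    unfold PR_im
    rw [Finset.sum_empty, Finset.image_empty, if_pos (by rw [Finset.card_empty, Finset.card_empty]),
      PR_bd_single, Finset.sum_empty]
  | insert x τ hx ih =>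
    rw [Finset.sum_insert hx, Finset.erase_insert hx, PR_im_insert _ _ _ hx, PR_bd_m', ← ih, map_sum]
    congr 1
    refine Finset.sum_congr rfl fun y hy => ?_
    have hxy : x ≠ y := by rintro rfl; exact hx hy
    rw [Finset.erase_insert_of_ne hxy, PR_im_insert _ _ _ (fun h => hx (Finset.mem_of_mem_erase h))]

variable [LinearOrder L]

/-- The prism chain. -/
def PR_pr (key : X → L) (φ ψ : X → Y) (σ : Finset X) : PR_Ch Y :=
  ∑ x ∈ σ, if (prismSet key φ ψ σ x).card = σ.card + 1 then
    Finsupp.single (prismSet key φ ψ σ x) 1 else 0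

lemma PR_set_self (key : X → L) (φ ψ : X → Y) (x : X) (τ : Finset X) (h : ∀ z ∈ τ, key x < key z) :
    prismSet key φ ψ (insert x τ) x = insert (φ x) (insert (ψ x) (τ.image ψ)) := by
  unfold prismSet
  have h1 : (insert x τ).filter (fun y => key y ≤ key x) = {x} := by
    ext z
    rw [Finset.mem_filter, Finset.mem_insert, Finset.mem_singleton]
    constructor
    · rintro ⟨rfl | hz, h2⟩
      · rfl
      · exact absurd (h z hz) (not_lt.mpr h2)
    · rintro rfl
      exact ⟨Or.inl rfl, le_rfl⟩
  have h2 : (insert x τ).filter (fun y => key x ≤ key y) = insert x τ := by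
    rw [Finset.filter_eq_self]
    intro z hz
    rcases Finset.mem_insert.mp hz with rfl | hz
    · exact le_rfl
    · exact (h z hz).le
  rw [h1, h2, Finset.image_singleton, Finset.image_insert, ← Finset.insert_eq]

lemma PR_set_of_mem (key : X → L) (φ ψ : X → Y) (x : X) (τ : Finset X) (h : ∀ z ∈ τ, key x < key z)
    (z : X) (hz : z ∈ τ) :
    prismSet key φ ψ (insert x τ) z = insert (φ x) (prismSet key φ ψ τ z) := by
  unfold prismSet
  have h1 : (insert x τ).filter (fun y => key y ≤ key z) =
      insert x (τ.filter (fun y => key y ≤ key z)) := by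
    rw [Finset.filter_insert, if_pos (h z hz).le]
  have h2 : (insert x τ).filter (fun y => key z ≤ key y) = τ.filter (fun y => key z ≤ key y) := by
    rw [Finset.filter_insert, if_neg (not_le.mpr (h z hz))]
  rw [h1, h2, Finset.image_insert, Finset.insert_union]

lemma PR_card_le (key : X → L) (φ ψ : X → Y) (τ : Finset X) (hτ : Set.InjOn key (↑τ : Set X))
    (z : X) (hz : z ∈ τ) : (prismSet key φ ψ τ z).card ≤ τ.card + 1 := by
  unfold prismSet
  refine (Finset.card_union_le _ _).trans ?_
  refine (Nat.add_le_add Finset.card_image_le Finset.card_image_le).trans ?_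
  rw [← Finset.card_union_add_card_inter]
  refine Nat.add_le_add (Finset.card_le_card
    (Finset.union_subset (Finset.filter_subset _ _) (Finset.filter_subset _ _))) ?_
  rw [Finset.card_le_one]
  intro a ha b hb
  rw [Finset.mem_inter, Finset.mem_filter, Finset.mem_filter] at ha hb
  have h1 : a = z := hτ ha.1.1 hz (le_antisymm ha.1.2 ha.2.2)
  have h2 : b = z := hτ hb.1.1 hz (le_antisymm hb.1.2 hb.2.2)
  rw [h1, h2]

lemma PR_pr_insert (key : X → L) (φ ψ : X → Y) (x : X) (τ : Finset X) (hx : x ∉ τ)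
    (hτ : Set.InjOn key (↑τ : Set X)) (h : ∀ z ∈ τ, key x < key z) :
    PR_pr key φ ψ (insert x τ) =
      PR_m (φ x) (PR_m (ψ x) (PR_im ψ τ)) + PR_m (φ x) (PR_pr key φ ψ τ) := by
  unfold PR_pr
  rw [Finset.sum_insert hx, PR_set_self key φ ψ x τ h, ← PR_im_insert ψ x τ hx]
  congr 1
  · unfold PR_im
    rw [Finset.image_insert]
    set t := insert (ψ x) (τ.image ψ)
    by_cases h1 : t.card = (insert x τ).card
    · rw [if_pos h1, PR_m_single]
      by_cases h2 : φ x ∈ t
      · rw [if_pos h2, Finset.insert_eq_of_mem h2, if_neg (by omega)]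
      · rw [if_neg h2, Finset.card_insert_of_notMem h2, if_pos (by omega)]
    · rw [if_neg h1, map_zero, if_neg]
      intro h5
      have h3 := Finset.card_insert_le (φ x) t
      have h4 : t.card ≤ (insert x τ).card := by
        have : t = (insert x τ).image ψ := by rw [Finset.image_insert]
        rw [this]
        exact Finset.card_image_le
      omega
  · rw [map_sum]
    refine Finset.sum_congr rfl fun z hz => ?_
    rw [PR_set_of_mem key φ ψ x τ h z hz, Finset.card_insert_of_notMem hx]
    have h4 : (prismSet key φ ψ τ z).card ≤ τ.card + 1 := PR_card_le key φ ψ τ hτ z hz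
    by_cases h1 : (prismSet key φ ψ τ z).card = τ.card + 1
    · rw [if_pos h1, PR_m_single]
      by_cases h2 : φ x ∈ prismSet key φ ψ τ z
      · rw [if_pos h2, Finset.insert_eq_of_mem h2, if_neg (by omega)]
      · rw [if_neg h2, Finset.card_insert_of_notMem h2, if_pos (by omega)]
    · rw [if_neg h1, map_zero, if_neg]
      intro h5
      have h3 := Finset.card_insert_le (φ x) (prismSet key φ ψ τ z)
      omega

lemma PR_main (key : X → L) (φ ψ : X → Y) (σ : Finset X) (hσ : Set.InjOn key (↑σ : Set X)) :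
    ∑ x ∈ σ, PR_pr key φ ψ (σ.erase x) + PR_bd (PR_pr key φ ψ σ) = PR_im φ σ + PR_im ψ σ := by
  revert hσ
  refine Finset.induction_on_min_value key σ ?_ ?_
  · intro _
    unfold PR_pr PR_im
    simp only [Finset.sum_empty, map_zero, Finset.image_empty, PR_two, add_zero]
  · intro x τ hx hmin ih hinj
    have hτ : Set.InjOn key (↑τ : Set X) :=
      hinj.mono (by rw [Finset.coe_insert]; exact Set.subset_insert _ _)
    have h : ∀ z ∈ τ, key x < key z := by
      intro z hz
      refine lt_of_le_of_ne (hmin z hz) fun h2 => ?_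
      have := hinj (Finset.mem_coe.mpr (Finset.mem_insert_self x τ))
        (Finset.mem_coe.mpr (Finset.mem_insert_of_mem hz)) h2
      exact hx (this ▸ hz)
    have ih2 := ih hτ
    have h1 : ∑ y ∈ τ, PR_pr key φ ψ ((insert x τ).erase y) =
        PR_m (φ x) (PR_m (ψ x) (PR_bd (PR_im ψ τ))) +
          PR_m (φ x) (∑ y ∈ τ, PR_pr key φ ψ (τ.erase y)) := by
      rw [← PR_im_bd, map_sum, map_sum, map_sum, ← Finset.sum_add_distrib]
      refine Finset.sum_congr rfl fun y hy => ?_
      have hxy : x ≠ y := by rintro rfl; exact hx hy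
      rw [Finset.erase_insert_of_ne hxy, PR_pr_insert key φ ψ x (τ.erase y)
        (fun h => hx (Finset.mem_of_mem_erase h))
        (hτ.mono (by exact_mod_cast Finset.erase_subset y τ))
        (fun z hz => h z (Finset.mem_of_mem_erase hz))]
    rw [Finset.sum_insert hx, Finset.erase_insert hx, h1, PR_pr_insert key φ ψ x τ hx hτ h,
      map_add, PR_bd_m', PR_bd_m', PR_bd_m', PR_im_insert φ x τ hx, PR_im_insert ψ x τ hx]
    have ih3 : PR_bd (PR_pr key φ ψ τ) = PR_im φ τ + PR_im ψ τ +
        ∑ y ∈ τ, PR_pr key φ ψ (τ.erase y) := by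
      rw [← ih2, add_comm (∑ y ∈ τ, PR_pr key φ ψ (τ.erase y)), add_assoc, PR_two, add_zero]
    rw [ih3, map_add, map_add, map_add]
    set a := PR_pr key φ ψ τ
    set b := PR_m (φ x) (PR_m (ψ x) (PR_bd (PR_im ψ τ)))
    set c := PR_m (φ x) (∑ y ∈ τ, PR_pr key φ ψ (τ.erase y))
    set d := PR_m (ψ x) (PR_im ψ τ)
    set e := PR_m (φ x) (PR_im ψ τ)
    set g := PR_m (φ x) (PR_im φ τ)
    have e1 : a + (b + c) + (d + (e + b) + (a + (g + e + c))) =
        (a + a) + (b + b) + (c + c) + (e + e) + (g + d) := by abel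
    rw [e1, PR_two a, PR_two b, PR_two c, PR_two e]
    simp only [zero_add]

/-- The value of a cochain on a chain. -/
def PR_ev (f : Finset Y → ZMod 2) : PR_Ch Y →ₗ[ZMod 2] ZMod 2 :=
  Finsupp.linearCombination (ZMod 2) f

lemma PR_ev_single (f : Finset Y → ZMod 2) (s : Finset Y) :
    PR_ev f (Finsupp.single s 1) = f s := by
  unfold PR_ev
  rw [Finsupp.linearCombination_single, one_smul]

lemma PR_ev_bd (f : Finset Y → ZMod 2) (c : PR_Ch Y) : PR_ev f (PR_bd c) = PR_ev (dd f) c := by
  have h : PR_ev f ∘ₗ PR_bd = PR_ev (dd f) := by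
    refine Finsupp.lhom_ext' fun s => LinearMap.ext_ring ?_
    simp only [LinearMap.comp_apply, Finsupp.lsingle_apply]
    rw [PR_bd_single, map_sum, PR_ev_single]
    change _ = ∑ x ∈ s, f (s.erase x)
    refine Finset.sum_congr rfl fun x _ => ?_
    rw [PR_ev_single]
  exact LinearMap.congr_fun h c

lemma PR_ev_im (φ : X → Y) (f : Finset Y → ZMod 2) (σ : Finset X) :
    PR_ev f (PR_im φ σ) = pull φ f σ := by
  unfold PR_im
  change _ = if (σ.image φ).card = σ.card then f (σ.image φ) else 0
  split_ifs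
  · rw [PR_ev_single]
  · rw [map_zero]

lemma PR_ev_pr (key : X → L) (φ ψ : X → Y) (f : Finset Y → ZMod 2) (σ : Finset X) :
    PR_ev f (PR_pr key φ ψ σ) = prism key φ ψ f σ := by
  unfold PR_pr
  rw [map_sum]
  change _ = ∑ x ∈ σ,
    if (prismSet key φ ψ σ x).card = σ.card + 1 then f (prismSet key φ ψ σ x) else 0
  refine Finset.sum_congr rfl fun x _ => ?_
  split_ifs
  · rw [PR_ev_single]
  · rw [map_zero]

/-- The prism identity. -/
theorem PR {X Y L : Type} [LinearOrder L] (key : X → L) (φ ψ : X → Y) (f : Finset Y → ZMod 2)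
    (σ : Finset X) (hσ : Set.InjOn key (↑σ : Set X)) :
    dd (prism key φ ψ f) σ + prism key φ ψ (dd f) σ = pull φ f σ + pull ψ f σ := by
  have h := congrArg (PR_ev f) (PR_main key φ ψ σ hσ)
  rw [map_add, map_add, map_sum, PR_ev_bd, PR_ev_im, PR_ev_im, PR_ev_pr] at h
  rw [← h]
  congr 1
  change ∑ x ∈ σ, prism key φ ψ f (σ.erase x) = _
  refine Finset.sum_congr rfl fun x _ => ?_
  rw [PR_ev_pr]

end Pool.Agent.helper62.K3
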